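import Pool.Agent.J6H30.Gal4.Coll

set_option autoImplicit false
set_option linter.unusedSectionVars false
set_option linter.unusedVariables false

/-! # Replacing a side by a vertex gives again a flag normal pseudomanifold -/

namespace Pool.Agent.J6H30.Gal5

open Pool.Agent.W497.FS Pool.Agent.TH417.Gal Pool.Agent.J6H30.Gal2 Pool.Agent.J6H30.Gal3
open Pool.Agent.J6H30.Gal4

variable {α : Type} [DecidableEq α] {H : SimpleGraph α} {W V A B : Finset α} {a : α}

theorem cadj (hn : a ∉ V ∪ B) {x z : α} (hx : x ∈ V ∪ B)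
    (hz : z ∈ V ∪ B) : (collG H V B a).Adj x z ↔ H.Adj x z := by
  rw [collG_adj]
  constructor
  · rintro ⟨h1, ⟨-, -, h2⟩ | ⟨h2, -⟩ | ⟨h2, -⟩⟩
    · exact h2
    · exact absurd (h2 ▸ hx) hn
    · exact absurd (h2 ▸ hz) hn
  · exact fun h1 => ⟨h1.ne, Or.inl ⟨hx, hz, h1⟩⟩

theorem cadj_a (hn : a ∉ V ∪ B) {x : α} : (collG H V B a).Adj a x ↔ x ∈ V := by
  rw [collG_adj]
  constructor
  · rintro ⟨h1, ⟨h2, -, -⟩ | ⟨-, h2⟩ | ⟨-, h2⟩⟩
    · exact absurd h2 hn
    · exact h2
    · exact absurd (Finset.mem_union_left _ h2) hn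
  · intro hx
    refine ⟨?_, Or.inr (Or.inl ⟨rfl, hx⟩)⟩
    rintro rfl
    exact hn (Finset.mem_union_left _ hx)

theorem clk_a (hn : a ∉ V ∪ B) : lk (collG H V B a) (insert a (V ∪ B)) a = V := by
  ext x
  rw [mem_lk, cadj_a hn]
  exact ⟨fun h => h.2, fun h => ⟨Finset.mem_insert_of_mem (Finset.mem_union_left _ h), h⟩⟩

theorem clk_B (h : Sep H W V A B) (hn : a ∉ V ∪ B) {b : α} (hb : b ∈ B) :
    lk (collG H V B a) (insert a (V ∪ B)) b = lk H W b := by
  have hbV : b ∈ V ∪ B := Finset.mem_union_right _ hb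
  ext x
  rw [mem_lk, mem_lk]
  constructor
  · rintro ⟨h2, h3⟩
    rcases Finset.mem_insert.1 h2 with h4 | h4
    · exfalso
      rw [h4] at h3
      have := (cadj_a hn).1 h3.symm
      exact Finset.disjoint_left.1 h.dVB this hb
    · refine ⟨?_, (cadj hn hbV h4).1 h3⟩
      rcases Finset.mem_union.1 h4 with h5 | h5
      · exact h.subV h5
      · exact h.subB h5
  · rintro ⟨h2, h3⟩
    have h4 : x ∈ V ∪ B := by
      rcases h.mem_or h2 with h5 | h5 | h5
      · exact Finset.mem_union_left _ h5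
      · exact absurd h3.symm (h.no x h5 b hb)
      · exact Finset.mem_union_right _ h5
    exact ⟨Finset.mem_insert_of_mem h4, (cadj hn hbV h4).2 h3⟩

theorem clk_V (hn : a ∉ V ∪ B) {x : α} (hx : x ∈ V) :
    lk (collG H V B a) (insert a (V ∪ B)) x = insert a (lk H V x ∪ lk H B x) := by
  have hxV : x ∈ V ∪ B := Finset.mem_union_left _ hx
  ext z
  rw [mem_lk, Finset.mem_insert, Finset.mem_insert, ← lk_union, mem_lk]
  constructor
  · rintro ⟨h2 | h2, h3⟩
    · exact Or.inl h2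
    · exact Or.inr ⟨h2, (cadj hn hxV h2).1 h3⟩
  · rintro (h2 | ⟨h2, h3⟩)
    · rw [h2]
      exact ⟨Or.inl rfl, ((cadj_a hn).2 hx).symm⟩
    · exact ⟨Or.inr h2, (cadj hn hxV h2).2 h3⟩

theorem lk_B_subset (h : Sep H W V A B) {b : α} (hb : b ∈ B) : lk H W b ⊆ V ∪ B := by
  intro x hx
  obtain ⟨h2, h3⟩ := mem_lk.1 hx
  rcases h.mem_or h2 with h5 | h5 | h5
  · exact Finset.mem_union_left _ h5
  · exact absurd h3.symm (h.no x h5 b hb)
  · exact Finset.mem_union_right _ h5

theorem coll_sconn {D : ℕ} (hW : NP H (D + 2) W) (hV : NP H (D + 1) V) (h : Sep H W V A B)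
    (hn : a ∉ V ∪ B) : SConn (collG H V B a) (insert a (V ∪ B)) := by
  have hB := h.symm.bdy_eq D hW hV
  have hBc := h.symm.sconn D hW hV
  intro P hP hne hneq
  by_contra hcon
  push Not at hcon
  have haW : a ∈ insert a (V ∪ B) := Finset.mem_insert_self a _
  have hVW : ∀ x ∈ V, x ∈ insert a (V ∪ B) := fun x hx =>
    Finset.mem_insert_of_mem (Finset.mem_union_left _ hx)
  have hBW : ∀ x ∈ B, x ∈ insert a (V ∪ B) := fun x hx =>
    Finset.mem_insert_of_mem (Finset.mem_union_right _ hx)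
  have key : ∀ x ∈ insert a (V ∪ B), ∀ z ∈ insert a (V ∪ B), (collG H V B a).Adj x z →
      (x ∈ P ↔ z ∈ P) := by
    intro x hx z hz hxz
    constructor
    · intro hxP
      by_contra hzP
      exact hcon x hxP z hz hzP hxz
    · intro hzP
      by_contra hxP
      exact hcon z hzP x hx hxP hxz.symm
  have f1 : ∀ x ∈ V, (a ∈ P ↔ x ∈ P) := fun x hx =>
    key a haW x (hVW x hx) ((cadj_a hn).2 hx)
  have f2 : ∀ b ∈ B, ∀ b' ∈ B, b ∈ P → b' ∈ P := by
    intro b hb b' hb' hbP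
    by_contra hb'P
    obtain ⟨c, hc, e, he, heQ, hce⟩ := hBc (B.filter (fun x => x ∈ P)) (Finset.filter_subset _ _)
      ⟨b, Finset.mem_filter.2 ⟨hb, hbP⟩⟩ (fun he => by
        rw [← he] at hb'
        exact hb'P (Finset.mem_filter.1 hb').2)
    obtain ⟨hcB, hcP⟩ := Finset.mem_filter.1 hc
    have heP : e ∉ P := fun h1 => heQ (Finset.mem_filter.2 ⟨he, h1⟩)
    exact heP ((key c (hBW c hcB) e (hBW e he)
      ((cadj hn (Finset.mem_union_right _ hcB) (Finset.mem_union_right _ he)).2 hce)).1 hcP)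
  obtain ⟨x0, hx0⟩ := hV.nonempty
  obtain ⟨-, -, b0, hb0, hxb⟩ := mem_bdy.1 (hB.symm ▸ hx0)
  have f3 : x0 ∈ P ↔ b0 ∈ P := key x0 (hVW x0 hx0) b0 (hBW b0 hb0)
    ((cadj hn (Finset.mem_union_left _ hx0) (Finset.mem_union_right _ hb0)).2 hxb)
  have f4 : ∀ x ∈ insert a (V ∪ B), (x ∈ P ↔ a ∈ P) := by
    intro x hx
    rcases Finset.mem_insert.1 hx with h1 | h1
    · rw [h1]
    rcases Finset.mem_union.1 h1 with h1 | h1
    · exact (f1 x h1).symm
    · rw [f1 x0 hx0, f3]
      exact ⟨f2 x h1 b0 hb0, f2 b0 hb0 x h1⟩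
  obtain ⟨p, hp⟩ := hne
  have haP := (f4 p (hP hp)).1 hp
  exact hneq (Finset.Subset.antisymm hP (fun x hx => (f4 x hx).2 haP))

/-- **replacing a side by a vertex gives again a flag normal pseudomanifold** -/
theorem coll_NP (d : ℕ) : ∀ {W V A B : Finset α} {a : α}, NP H (d + 2) W → NP H (d + 1) V →
    Sep H W V A B → a ∉ V ∪ B → NP (collG H V B a) (d + 2) (insert a (V ∪ B)) := by
  induction d with
  | zero =>
    intro W V A B a hW hV h hn
    have hA := h.bdy_eq 0 hW hV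
    have hB := h.symm.bdy_eq 0 hW hV
    refine ⟨⟨a, Finset.mem_insert_self a _⟩, coll_sconn hW hV h hn, ?_⟩
    intro x hx
    rcases Finset.mem_insert.1 hx with h1 | h1
    · rw [h1, clk_a hn]
      exact NP_congr' (fun x hx z hz => (cadj hn (Finset.mem_union_left _ hx)
        (Finset.mem_union_left _ hz)).symm) hV
    rcases Finset.mem_union.1 h1 with h1 | h1
    · rw [clk_V hn h1]
      have e1 : lk H V x = ∅ := by
        apply Finset.eq_empty_of_forall_notMem
        intro z hz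
        obtain ⟨h2, h3⟩ := mem_lk.1 hz
        exact hV.2 x h1 z h2 h3
      obtain ⟨-, -, p, hp, hxp⟩ := mem_bdy.1 (hA.symm ▸ h1)
      obtain ⟨-, -, q, hq, hxq⟩ := mem_bdy.1 (hB.symm ▸ h1)
      have hc : (lk H W x).card = 2 := (hW.lk (h.subV h1)).1
      have hd := h.deg x
      have hp1 : 0 < (lk H A x).card := Finset.card_pos.2 ⟨p, mem_lk.2 ⟨hp, hxp⟩⟩
      have hq1 : 0 < (lk H B x).card := Finset.card_pos.2 ⟨q, mem_lk.2 ⟨hq, hxq⟩⟩
      have hB1 : (lk H B x).card = 1 := by omega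
      obtain ⟨b, hb⟩ := Finset.card_eq_one.1 hB1
      have hbB : b ∈ B := lk_subset (hb ▸ Finset.mem_singleton_self b)
      have hab : a ≠ b := fun he => hn (Finset.mem_union_right _ (he ▸ hbB))
      rw [e1, Finset.empty_union, hb]
      refine ⟨Finset.card_pair hab, ?_⟩
      have hnab : ¬ (collG H V B a).Adj a b := fun h2 =>
        Finset.disjoint_left.1 h.dVB ((cadj_a hn).1 h2) hbB
      intro z hz z' hz' hzz
      rcases Finset.mem_insert.1 hz with h2 | h2 <;> rcases Finset.mem_insert.1 hz' with h3 | h3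
      · exact hzz.ne (h2.trans h3.symm)
      · rw [h2, Finset.mem_singleton.1 h3] at hzz
        exact hnab hzz
      · rw [h3, Finset.mem_singleton.1 h2] at hzz
        exact hnab hzz.symm
      · exact hzz.ne ((Finset.mem_singleton.1 h2).trans (Finset.mem_singleton.1 h3).symm)
    · rw [clk_B h hn h1]
      exact NP_congr' (fun z hz z' hz' => (cadj hn (lk_B_subset h h1 hz)
        (lk_B_subset h h1 hz')).symm) (hW.lk (h.subB h1))
  | succ d ih =>
    intro W V A B a hW hV h hn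
    have hA := h.bdy_eq (d + 1) hW hV
    have hB := h.symm.bdy_eq (d + 1) hW hV
    refine ⟨⟨a, Finset.mem_insert_self a _⟩, coll_sconn hW hV h hn, ?_⟩
    intro x hx
    rcases Finset.mem_insert.1 hx with h1 | h1
    · rw [h1, clk_a hn]
      exact NP_congr' (fun x hx z hz => (cadj hn (Finset.mem_union_left _ hx)
        (Finset.mem_union_left _ hz)).symm) hV
    rcases Finset.mem_union.1 h1 with h1 | h1
    · rw [clk_V hn h1]
      obtain ⟨-, -, p, hp, hxp⟩ := mem_bdy.1 (hA.symm ▸ h1)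
      obtain ⟨-, -, q, hq, hxq⟩ := mem_bdy.1 (hB.symm ▸ h1)
      have hsep := h.lk_sep (u := x) ⟨p, mem_lk.2 ⟨hp, hxp⟩⟩ ⟨q, mem_lk.2 ⟨hq, hxq⟩⟩
      have hn' : a ∉ lk H V x ∪ lk H B x := fun h2 => by
        rcases Finset.mem_union.1 h2 with h2 | h2
        · exact hn (Finset.mem_union_left _ (lk_subset h2))
        · exact hn (Finset.mem_union_right _ (lk_subset h2))
      refine NP_congr' (fun z hz z' hz' => ?_) (ih (hW.lk (h.subV h1)) (hV.lk h1) hsep hn')
      have hsub : lk H V x ∪ lk H B x ⊆ V ∪ B :=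
        Finset.union_subset_union lk_subset lk_subset
      have hmem : ∀ z ∈ lk H V x ∪ lk H B x, (z ∈ lk H V x ↔ z ∈ V) := by
        intro z hz
        refine ⟨fun h2 => lk_subset h2, fun h2 => ?_⟩
        rcases Finset.mem_union.1 hz with h3 | h3
        · exact h3
        · exact absurd (lk_subset h3) (Finset.disjoint_left.1 h.dVB h2)
      rcases Finset.mem_insert.1 hz with h2 | h2 <;> rcases Finset.mem_insert.1 hz' with h3 | h3
      · rw [h2, h3]
        exact ⟨fun h4 => absurd rfl h4.ne, fun h4 => absurd rfl h4.ne⟩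
      · rw [h2, cadj_a hn', cadj_a hn]
        exact hmem z' h3
      · rw [h3, SimpleGraph.adj_comm, cadj_a hn', SimpleGraph.adj_comm, cadj_a hn]
        exact hmem z h2
      · rw [cadj hn' h2 h3, cadj hn (hsub h2) (hsub h3)]
    · rw [clk_B h hn h1]
      exact NP_congr' (fun z hz z' hz' => (cadj hn (lk_B_subset h h1 hz)
        (lk_B_subset h h1 hz')).symm) (hW.lk (h.subB h1))

end Pool.Agent.J6H30.Gal5
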