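import Mathlib
import Pool.Agent.J6H64.DP.Main
import Pool.Agent.J6H64.DP.Iso
import Pool.Agent.J6H64.DP.Base
import Pool.Agent.W497.FS.Basic

set_option autoImplicit false
set_option linter.unusedSectionVars false
set_option linter.unusedVariables false

/-! # Flag normal pseudomanifolds are discrete pseudomanifolds -/

namespace Pool.Agent.J6H30.Gal5

open Pool.Agent.W497.FS Pool.Agent.J6H64.DP

/-- finite connected graphs with all degrees two are cycles -/
theorem cycle_iso {V : Type} [Finite V] (G : SimpleGraph V) (hc : G.Connected)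
    (h2 : ∀ v, (G.neighborSet v).ncard = 2) :
    ∃ m : ℕ, Nonempty (G ≃g SimpleGraph.cycleGraph (m + 3)) := by
  classical
  obtain ⟨v0⟩ := hc.nonempty
  have hcyc : G.IsCycles := fun v _ => h2 v
  have hne : (G.neighborSet v0).Nonempty := by
    apply Set.nonempty_of_ncard_ne_zero
    rw [h2]
    norm_num
  obtain ⟨p, hp, hverts⟩ := hcyc.exists_cycle_toSubgraph_verts_eq_connectedComponentSupp
    (c := G.connectedComponentMk v0) (SimpleGraph.ConnectedComponent.connectedComponentMk_mem) hne
  have h3 := hp.three_le_length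
  obtain ⟨m, hm⟩ : ∃ m, p.length = m + 3 := ⟨p.length - 3, by omega⟩
  refine ⟨m, ?_⟩
  have hall : ∀ v, v ∈ p.support := by
    intro v
    have : v ∈ p.toSubgraph.verts := by
      rw [hverts, SimpleGraph.ConnectedComponent.mem_supp_iff, SimpleGraph.ConnectedComponent.eq]
      exact hc.preconnected v v0
    rwa [SimpleGraph.Walk.mem_verts_toSubgraph] at this
  let e : Fin (m + 3) → V := fun i => p.getVert i.val
  have hinj : Function.Injective e := by
    intro i j hij
    have h4 := hp.getVert_injOn'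
    apply Fin.ext
    refine h4 ?_ ?_ hij
    · have := i.isLt
      simp only [Set.mem_ofPred_eq]
      omega
    · have := j.isLt
      simp only [Set.mem_ofPred_eq]
      omega
  have hlast : p.getVert (m + 3) = v0 := by
    rw [← hm, SimpleGraph.Walk.getVert_length]
  have h0 : p.getVert 0 = v0 := SimpleGraph.Walk.getVert_zero p
  have hsurj : Function.Surjective e := by
    intro v
    obtain ⟨i, hi, hil⟩ := SimpleGraph.Walk.mem_support_iff_exists_getVert.1 (hall v)
    rcases Nat.lt_or_ge i (m + 3) with h5 | h5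
    · exact ⟨⟨i, h5⟩, hi⟩
    · obtain rfl : i = m + 3 := by omega
      refine ⟨⟨0, by omega⟩, ?_⟩
      change p.getVert 0 = v
      rw [h0, ← hlast, hi]
  have hstep : ∀ i : Fin (m + 3), G.Adj (e i) (e (i + 1)) := by
    intro i
    by_cases hi : i = Fin.last (m + 2)
    · have h5 : i + 1 = 0 := by rw [hi]; exact Fin.last_add_one (m + 2)
      rw [h5]
      change G.Adj (p.getVert i.val) (p.getVert 0)
      have h6 : i.val = m + 2 := by rw [hi]; rfl
      have h7 : G.Adj (p.getVert (m + 2)) (p.getVert (m + 2 + 1)) := p.adj_getVert_succ (by omega)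
      rw [h6, h0]
      have h8 : p.getVert (m + 2 + 1) = v0 := hlast
      rw [h8] at h7
      exact h7
    · have h5 : i < Fin.last (m + 2) := Fin.lt_last_iff_ne_last.2 hi
      have h6 : (i + 1).val = i.val + 1 := Fin.val_add_one_of_lt h5
      change G.Adj (p.getVert i.val) (p.getVert (i + 1).val)
      rw [h6]
      exact p.adj_getVert_succ (by have := i.isLt; omega)
  have hnb : ∀ i : Fin (m + 3), G.neighborSet (e i) = {e (i + 1), e (i - 1)} := by
    intro i
    symm
    apply Set.eq_of_subset_of_ncard_le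
    · intro x hx
      rcases hx with rfl | hx
      · exact hstep i
      · rw [Set.mem_singleton_iff] at hx
        rw [hx]
        have h5 := hstep (i - 1)
        rw [sub_add_cancel] at h5
        exact h5.symm
    · rw [h2, Set.ncard_pair]
      intro h5
      have h6 := hinj h5
      have h7 : (1 : Fin (m + 3)) + 1 = 0 := by
        have h8 : i + 1 - i + 1 = i - 1 - i + 1 := by rw [h6]
        have h9 : i + 1 - i + 1 = (1 : Fin (m + 3)) + 1 := by abel
        have h10 : i - 1 - i + 1 = (0 : Fin (m + 3)) := by abel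
        rw [h9, h10] at h8
        exact h8
      have h8 : ((1 : Fin (m + 3)) + 1).val = 2 := by
        rw [Fin.val_add]
        have h9 : (1 : Fin (m + 3)).val = 1 := rfl
        rw [h9]
        exact Nat.mod_eq_of_lt (by omega)
      rw [h7] at h8
      exact absurd h8 (by norm_num)
    · exact Set.toFinite _
  refine ⟨(SimpleGraph.Iso.symm ⟨Equiv.ofBijective e ⟨hinj, hsurj⟩, ?_⟩)⟩
  intro i j
  change G.Adj (e i) (e j) ↔ _
  have h5 : G.Adj (e i) (e j) ↔ e j ∈ G.neighborSet (e i) := Iff.rfl
  rw [h5, hnb i, SimpleGraph.cycleGraph_adj]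
  simp only [Set.mem_insert_iff, Set.mem_singleton_iff, hinj.eq_iff]
  constructor
  · rintro (rfl | rfl)
    · right; abel
    · left; abel
  · rintro (h6 | h6)
    · right
      rw [← h6]; abel
    · left
      rw [← h6]; abel

theorem connected_of_sconn {V : Type} (H : SimpleGraph V) (W : Finset V) (hne : W.Nonempty)
    (hs : SConn H W) : (H.induce (W : Set V)).Connected := by
  classical
  obtain ⟨w0, hw0⟩ := hne
  haveI : Nonempty ((W : Set V)) := ⟨⟨w0, hw0⟩⟩
  refine ⟨fun u v => ?_⟩
  by_contra hcon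
  let A : Finset V := W.filter (fun x => ∃ hx : x ∈ (W : Set V),
    (H.induce (W : Set V)).Reachable u ⟨x, hx⟩)
  have huA : u.1 ∈ A := Finset.mem_filter.2 ⟨u.2, u.2, SimpleGraph.Reachable.refl _⟩
  obtain ⟨a, ha, b, hb, hbA, hab⟩ := hs A (Finset.filter_subset _ _) ⟨u.1, huA⟩ (fun he => by
    have hv : v.1 ∈ A := by rw [he]; exact v.2
    obtain ⟨_, _, hr⟩ := Finset.mem_filter.1 hv
    exact hcon hr)
  obtain ⟨haW, haS, har⟩ := Finset.mem_filter.1 ha
  refine hbA (Finset.mem_filter.2 ⟨hb, hb, har.trans ?_⟩)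
  apply SimpleGraph.Adj.reachable
  exact hab

theorem base_conv {V : Type} [Fintype V] (H : SimpleGraph V) (W : Finset V) (h : NP H 2 W) :
    ∃ n, 4 ≤ n ∧ Nonempty (H.induce (W : Set V) ≃g SimpleGraph.cycleGraph n) := by
  classical
  have hc := connected_of_sconn H W h.nonempty h.2.1
  have hlk : ∀ v : (W : Set V), ((H.induce (W : Set V)).neighborSet v).ncard = 2 := by
    intro v
    have h1 : (lk H W v.1).card = 2 := (h.lk v.2).1
    have h2 : (Subtype.val '' ((H.induce (W : Set V)).neighborSet v) : Set V) =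
        ((lk H W v.1 : Finset V) : Set V) := by
      ext x
      constructor
      · rintro ⟨z, hz, rfl⟩
        exact Finset.mem_coe.2 (mem_lk.2 ⟨z.2, hz⟩)
      · intro hx
        obtain ⟨h3, h4⟩ := mem_lk.1 (Finset.mem_coe.1 hx)
        exact ⟨⟨x, h3⟩, h4, rfl⟩
    rw [← Set.ncard_image_of_injective _ Subtype.val_injective, h2, Set.ncard_coe_finset, h1]
  obtain ⟨m, ⟨φ⟩⟩ := cycle_iso _ hc hlk
  rcases m with _ | m
  · exfalso
    -- a triangle
    have h3 : ∀ i j : Fin 3, i ≠ j → (SimpleGraph.cycleGraph 3).Adj i j := by decide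
    have hadj : ∀ i j : Fin 3, i ≠ j → H.Adj (φ.symm i).1 (φ.symm j).1 := by
      intro i j hij
      have : (H.induce (W : Set V)).Adj (φ.symm i) (φ.symm j) := φ.symm.map_adj_iff.2 (h3 i j hij)
      exact this
    have h4 := (h.lk (φ.symm 0).2).2 (φ.symm 1).1
      (mem_lk.2 ⟨(φ.symm 1).2, hadj 0 1 (by decide)⟩) (φ.symm 2).1
      (mem_lk.2 ⟨(φ.symm 2).2, hadj 0 2 (by decide)⟩)
    exact h4 (hadj 1 2 (by decide))
  · exact ⟨m + 1 + 3, by omega, ⟨φ⟩⟩

/-- flag normal pseudomanifolds are discrete pseudomanifolds -/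
theorem conv (d : ℕ) : ∀ (V : Type) [Fintype V] (H : SimpleGraph V) (W : Finset V),
    NP H (d + 2) W → DiscretePM (d + 1) _ (H.induce (W : Set V)) := by
  induction d with
  | zero =>
    intro V _ H W h
    exact base_conv H W h
  | succ d ih =>
    intro V _ H W h
    classical
    refine ⟨connected_of_sconn H W h.nonempty h.2.1, fun v => ?_⟩
    obtain ⟨φ⟩ := link_iso H W v
    exact s_iso (d + 1) _ _ _ _ ⟨φ.symm⟩ (ih V H (lk H W v.1) (h.lk v.2))

end Pool.Agent.J6H30.Gal5
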