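import Pool.Agent.J6H64.DP.Stm

set_option autoImplicit false

/-! # Equators of discrete pseudomanifolds: definitions -/

namespace Pool.Agent.J6H30.Gal5

open Pool.Agent.J6H64.DP

/-- `γ₂ = f₁ - (2 d - 1) f₀ + (d - 1) (2 d + 2)` for a graph of dimension `d` with `f₀` vertices and
`f₁` edges -/
noncomputable def gammaTwo (d : ℕ) {V : Type} (M : SimpleGraph V) : ℤ :=
  (Nat.card M.edgeSet : ℤ) - (2 * d - 1) * Nat.card V + (d - 1) * (2 * d + 2)

/-- `E` is an induced equator of dimension `d` of `M` with the sides `A` and `B`: the graph induced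
on `E` is a discrete `d`-pseudomanifold, and the other vertices are the disjoint union of two
nonempty sets `A` and `B` without edges between them -/
structure IsEquator (d : ℕ) {V : Type} [Fintype V] [DecidableEq V] (M : SimpleGraph V)
    (E A B : Finset V) : Prop where
  pm : DiscretePM d _ (M.induce (E : Set V))
  un : E ∪ (A ∪ B) = Finset.univ
  dEA : Disjoint E A
  dEB : Disjoint E B
  dAB : Disjoint A B
  neA : A.Nonempty
  neB : B.Nonempty
  no : ∀ a ∈ A, ∀ b ∈ B, ¬ M.Adj a b

open scoped Classical in
/-- the cost of the side `A` of the equator `E` of dimension `d`, computed with the connected subset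
`J` of `A`: `(|J| - 4) (|J| - 5)`, `0` for `|J| ≤ 5`, plus two times the sum over the vertices `w` of
`A` not in `J` of the number of the neighbours of `w` in `E` missing to `2 d` -/
noncomputable def cost (d : ℕ) {V : Type} [DecidableEq V] (M : SimpleGraph V)
    (E A J : Finset V) : ℕ :=
  (J.card - 4) * (J.card - 5) + 2 * ∑ w ∈ A \ J, (2 * d - (E.filter (fun x => M.Adj w x)).card)

/-- the graph obtained from `M` by replacing the side `A` of the equator `E` by the vertex `a`: its
vertices are `a` and the vertices of `E` and of the other side `B`, the edges between vertices other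
than `a` are those of `M`, and `a` is adjacent to all vertices of `E` -/
def replaced {V : Type} [DecidableEq V] (M : SimpleGraph V) (E B : Finset V) (a : V) :
    SimpleGraph ↥(insert a (E ∪ B)) where
  Adj x z := x ≠ z ∧ ((x.1 ≠ a ∧ z.1 ≠ a ∧ M.Adj x.1 z.1) ∨ (x.1 = a ∧ z.1 ∈ E) ∨
    (z.1 = a ∧ x.1 ∈ E))
  symm := ⟨fun x z h => by
    obtain ⟨h1, h2⟩ := h
    refine ⟨h1.symm, ?_⟩
    rcases h2 with ⟨h2, h3, h4⟩ | h2 | h2
    · exact Or.inl ⟨h3, h2, h4.symm⟩
    · exact Or.inr (Or.inr h2)
    · exact Or.inr (Or.inl h2)⟩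
  loopless := ⟨fun x h => h.1 rfl⟩

end Pool.Agent.J6H30.Gal5
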