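import Pool.Agent.J6H30.Gal5.Coll
import Pool.Agent.J6H30.Gal5.Cyc
import Pool.Agent.J6H30.Gal5.Defs

set_option autoImplicit false
set_option linter.unusedSectionVars false
set_option linter.unusedVariables false

/-! # Equators of discrete pseudomanifolds -/

namespace Pool.Agent.J6H30.Gal5

open Pool.Agent.W497.FS Pool.Agent.TH417.Gal Pool.Agent.J6H30.Gal2 Pool.Agent.J6H30.Gal3
open Pool.Agent.J6H64.DP
open Pool.Agent.J6H30.Gal4 hiding cost

theorem dg_univ {V : Type} [Fintype V] [DecidableEq V] (M : SimpleGraph V) :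
    dg M Finset.univ = 2 * Nat.card M.edgeSet := by
  classical
  have h := M.sum_degrees_eq_twice_card_edges
  rw [Nat.card_eq_fintype_card, ← SimpleGraph.edgeFinset_card]
  rw [← h]
  unfold dg
  refine Finset.sum_congr rfl fun v _ => ?_
  rw [← SimpleGraph.card_neighborFinset_eq_degree]
  congr 1
  ext x
  rw [mem_lk, SimpleGraph.mem_neighborFinset]
  simp

theorem dg_induce {V : Type} [Fintype V] [DecidableEq V] (M : SimpleGraph V) (W : Finset V) :
    dg M W = 2 * Nat.card (M.induce (W : Set V)).edgeSet := by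
  classical
  rw [← dg_univ (M.induce (W : Set V)), dg, dg]
  have h1 : ∑ v ∈ W, (lk M W v).card = ∑ v : (W : Set V), (lk M W v.1).card := by
    rw [← Finset.sum_coe_sort]
    rfl
  rw [h1]
  refine Finset.sum_congr rfl (fun v _ => ?_)
  symm
  refine Finset.card_bij (fun x _ => x.1) ?_ ?_ ?_
  · intro x hx
    obtain ⟨-, h3⟩ := mem_lk.1 hx
    exact mem_lk.2 ⟨x.2, h3⟩
  · intro x _ z _ hxz
    exact Subtype.ext hxz
  · intro x hx
    obtain ⟨h3, h4⟩ := mem_lk.1 hx
    exact ⟨⟨x, h3⟩, mem_lk.2 ⟨Finset.mem_univ _, h4⟩, rfl⟩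

theorem gammaTwo_eq {V : Type} [Fintype V] [DecidableEq V] (M : SimpleGraph V) (W : Finset V)
    (d : ℕ) : 2 * gammaTwo d (M.induce (W : Set V)) = G2 M (d + 1) W := by
  have h1 : Nat.card (W : Set V) = W.card := by
    rw [Nat.card_eq_fintype_card]
    simp
  rw [gammaTwo, G2, dg_induce, h1]
  push_cast
  ring

theorem gammaTwo_univ {V : Type} [Fintype V] [DecidableEq V] (M : SimpleGraph V) (d : ℕ) :
    2 * gammaTwo d M = G2 M (d + 1) Finset.univ := by
  rw [gammaTwo, G2, dg_univ, Finset.card_univ, Nat.card_eq_fintype_card (α := V)]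
  push_cast
  ring

theorem np_univ {V : Type} [Fintype V] {M : SimpleGraph V} {d : ℕ} (hM : DiscretePM d V M) :
    NP M (d + 1) Finset.univ := by
  refine s_main s_iso s_base d V M Finset.univ (s_iso d V _ M _ ⟨?_⟩ hM)
  exact ((SimpleGraph.induceUnivIso M).symm.trans
    (SimpleGraph.Iso.refl.trans (by rw [Finset.coe_univ])))

variable {V : Type} [Fintype V] [DecidableEq V] {M : SimpleGraph V} {d : ℕ} {E A B : Finset V}

theorem IsEquator.sep (h : IsEquator d M E A B) : Sep M Finset.univ E A B :=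
  ⟨h.un, h.dEA, h.dEB, h.dAB, h.neA, h.neB, h.no⟩

theorem IsEquator.np (h : IsEquator d M E A B) : NP M (d + 1) E :=
  s_main s_iso s_base d V M E h.pm

theorem IsEquator.symm (h : IsEquator d M E A B) : IsEquator d M E B A :=
  ⟨h.pm, by rw [Finset.union_comm B A]; exact h.un, h.dEB, h.dEA, h.dAB.symm, h.neB, h.neA,
    fun b hb a ha hab => h.no a ha b hb hab.symm⟩

theorem cost_eq' {J : Finset V} : cost d M E A J = gcost M d E A J := by
  rw [cost, gcost]
  congr 2

theorem equator_le (hM : DiscretePM (d + 1) V M) (h : IsEquator d M E A B) {J K : Finset V}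
    (hJ : J ⊆ A) (hJs : SConn M J) (hJne : J.Nonempty) (hK : K ⊆ B) (hKs : SConn M K)
    (hKne : K.Nonempty) :
    2 * gammaTwo d (M.induce (E : Set V)) ≤
      2 * gammaTwo (d + 1) M + (cost d M E A J + cost d M E B K : ℕ) := by
  have h1 := h.sep.G2_le (np_univ hM) h.np hJ hJs hJne hK hKs hKne
  rw [gammaTwo_eq, gammaTwo_univ, cost_eq', cost_eq']
  push_cast at h1 ⊢
  have e1 : ((d : ℤ) + 1 + 1) = d + 2 := by ring
  rw [e1]
  exact h1

theorem replaced_iso (h : IsEquator d M E A B) {a : V} (ha : a ∈ A) :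
    Nonempty ((collG M E B a).induce ((insert a (E ∪ B) : Finset V) : Set V) ≃g
      replaced M E B a) := by
  have hn := h.sep.notVB ha
  refine ⟨⟨Equiv.refl _, ?_⟩⟩
  intro x z
  change (x ≠ z ∧ ((x.1 ≠ a ∧ z.1 ≠ a ∧ M.Adj x.1 z.1) ∨ (x.1 = a ∧ z.1 ∈ E) ∨
    (z.1 = a ∧ x.1 ∈ E))) ↔ (collG M E B a).Adj x.1 z.1
  rw [collG_adj]
  have hmem : ∀ x : ↥(insert a (E ∪ B)), (x.1 ≠ a ↔ x.1 ∈ E ∪ B) := by
    intro x
    constructor
    · intro h1
      exact (Finset.mem_insert.1 x.2).resolve_left h1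
    · intro h1 h2
      exact hn (h2 ▸ h1)
  have h1 := hmem x
  have h2 := hmem z
  constructor
  · rintro ⟨h3, ⟨h4, h5, h6⟩ | h4 | h4⟩
    · exact ⟨fun he => h3 (Subtype.ext he), Or.inl ⟨h1.1 h4, h2.1 h5, h6⟩⟩
    · exact ⟨fun he => h3 (Subtype.ext he), Or.inr (Or.inl h4)⟩
    · exact ⟨fun he => h3 (Subtype.ext he), Or.inr (Or.inr h4)⟩
  · rintro ⟨h3, ⟨h4, h5, h6⟩ | h4 | h4⟩
    · exact ⟨fun he => h3 (by rw [he]), Or.inl ⟨h1.2 h4, h2.2 h5, h6⟩⟩
    · exact ⟨fun he => h3 (by rw [he]), Or.inr (Or.inl h4)⟩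
    · exact ⟨fun he => h3 (by rw [he]), Or.inr (Or.inr h4)⟩

theorem gammaTwo_congr {V V' : Type} {M : SimpleGraph V} {M' : SimpleGraph V'} (φ : M ≃g M')
    (d : ℕ) : gammaTwo d M = gammaTwo d M' := by
  rw [gammaTwo, gammaTwo, Nat.card_congr φ.mapEdgeSet, Nat.card_congr φ.toEquiv]

theorem replaced_pm (hM : DiscretePM (d + 2) V M) (h : IsEquator (d + 1) M E A B) {a : V}
    (ha : a ∈ A) : DiscretePM (d + 2) _ (replaced M E B a) := by
  obtain ⟨φ⟩ := replaced_iso h ha
  refine s_iso _ _ _ _ _ ⟨φ⟩ ?_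
  exact conv (d + 1) V _ _ (coll_NP (d + 1) (np_univ hM) h.np h.sep (h.sep.notVB ha))

theorem replaced_le (hM : DiscretePM (d + 1) V M) (h : IsEquator d M E A B) {a : V}
    (ha : a ∈ A) {J : Finset V} (hJ : J ⊆ A) (hJs : SConn M J) (hJne : J.Nonempty) :
    2 * gammaTwo (d + 1) (replaced M E B a) ≤ 2 * gammaTwo (d + 1) M + (cost d M E A J : ℕ) := by
  obtain ⟨φ⟩ := replaced_iso h ha
  have h1 := h.sep.G2_coll (np_univ hM) h.np ha hJ hJs hJne
  rw [← gammaTwo_congr φ, gammaTwo_eq, gammaTwo_univ, cost_eq']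
  push_cast at h1 ⊢
  have e1 : ((d : ℤ) + 1 + 1) = d + 2 := by ring
  rw [e1]
  exact h1

theorem card_replaced (h : IsEquator d M E A B) {a : V} (ha : a ∈ A) :
    Nat.card ↥(insert a (E ∪ B)) + A.card = Nat.card V + 1 := by
  have hn := h.sep.notVB ha
  have h1 : Nat.card ↥(insert a (E ∪ B)) = E.card + B.card + 1 := by
    rw [Nat.card_eq_fintype_card, Fintype.card_coe, Finset.card_insert_of_notMem hn,
      Finset.card_union_of_disjoint h.dEB]
  have h2 : Nat.card V = E.card + (A.card + B.card) := by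
    rw [Nat.card_eq_fintype_card, ← Finset.card_univ, ← h.un, Finset.card_union_of_disjoint
      (Finset.disjoint_union_right.2 ⟨h.dEA, h.dEB⟩), Finset.card_union_of_disjoint h.dAB]
  omega

/-- smallest counterexamples -/
theorem smallest (hM : DiscretePM (d + 2) V M) (hneg : gammaTwo (d + 2) M < 0)
    (hmin : ∀ (V' : Type) (M' : SimpleGraph V'), DiscretePM (d + 2) V' M' →
      Nat.card V' < Nat.card V → 0 ≤ gammaTwo (d + 2) M')
    (h : IsEquator (d + 1) M E A B) : A.card = 1 ∨ 6 ≤ A.card := by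
  by_contra hcon
  rw [not_or, not_le] at hcon
  obtain ⟨h1, h2⟩ := hcon
  obtain ⟨a, ha⟩ := h.neA
  have hpos := Finset.card_pos.2 h.neA
  have h3 := card_replaced h ha
  have h4 := hmin _ _ (replaced_pm hM h ha) (by omega)
  have hs : SConn M A := h.sep.sconn (d + 1) (np_univ hM) h.np
  have h5 := replaced_le hM h ha (Finset.Subset.refl A) hs h.neA
  have h6 : cost (d + 1) M E A A = 0 := by
    rw [cost, Finset.sdiff_self, Finset.sum_empty]
    have : A.card - 5 = 0 := by omega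
    rw [this]
    simp
  rw [h6] at h5
  push_cast at h5
  have e1 : gammaTwo (d + 1 + 1) M = gammaTwo (d + 2) M := rfl
  rw [e1] at h5
  linarith

end Pool.Agent.J6H30.Gal5
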